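import Pool.Agent.J6H36.AR.Defs3

/-!
# The roots of type `A_n` are pairs of indices (module AR-6 of helper36)
-/

set_option autoImplicit false

namespace Pool.Agent.J6H92.AR

open CoxeterSystem
open Pool.Agent.R676.Cox Pool.Agent.J6H36.AR
open Pool.Agent.Helper741 (cc)

lemma A_apply (n : ℕ) (i j : Fin n) : CoxeterMatrix.A n i j =
    if i = j then 1 else (if (j : ℕ) + 1 = i ∨ (i : ℕ) + 1 = j then 3 else 2) := rfl

lemma comm_far {a b c d : ℕ} (h1 : a ≠ c) (h2 : a ≠ d) (h3 : b ≠ c) (h4 : b ≠ d) :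
    Equiv.swap a b * Equiv.swap c d = Equiv.swap c d * Equiv.swap a b := by
  ext x
  simp only [Equiv.Perm.mul_apply, Equiv.swap_apply_def]
  split_ifs <;> simp_all

lemma braid {a b c : ℕ} (h1 : a ≠ b) (h2 : b ≠ c) (h3 : a ≠ c) :
    Equiv.swap a b * Equiv.swap b c * Equiv.swap a b =
      Equiv.swap b c * Equiv.swap a b * Equiv.swap b c := by
  ext x
  simp only [Equiv.Perm.mul_apply, Equiv.swap_apply_def]
  split_ifs <;> simp_all

lemma liftable (n : ℕ) : (CoxeterMatrix.A n).IsLiftable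
    (fun i : Fin n => Equiv.swap (i : ℕ) ((i : ℕ) + 1)) := by
  have key : ∀ i : ℕ, (Equiv.swap i (i + 1) * Equiv.swap (i + 1) (i + 1 + 1)) ^ 3 = 1 := by
    intro i
    have h := braid (a := i) (b := i + 1) (c := i + 1 + 1) (by omega) (by omega) (by omega)
    have h2 : (Equiv.swap i (i + 1) * Equiv.swap (i + 1) (i + 1 + 1)) ^ 3 =
        (Equiv.swap i (i + 1) * Equiv.swap (i + 1) (i + 1 + 1) * Equiv.swap i (i + 1)) *
        (Equiv.swap (i + 1) (i + 1 + 1) * Equiv.swap i (i + 1) *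
          Equiv.swap (i + 1) (i + 1 + 1)) := by
      simp only [pow_succ, pow_zero, one_mul, mul_assoc]
    rw [h2, h]
    simp only [mul_assoc, Equiv.swap_mul_self_mul, Equiv.swap_mul_self]
  intro i j
  rw [A_apply]
  by_cases hij : i = j
  · subst hij
    simp
  · rw [if_neg hij]
    have hij' : (i : ℕ) ≠ j := fun h => hij (Fin.ext h)
    split_ifs with h
    · rcases h with h | h
      · show (Equiv.swap (i : ℕ) ((i : ℕ) + 1) * Equiv.swap (j : ℕ) ((j : ℕ) + 1)) ^ 3 = 1
        rw [← h]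
        have h3 := key (j : ℕ)
        have h4 : Equiv.swap ((j : ℕ) + 1) ((j : ℕ) + 1 + 1) * Equiv.swap (j : ℕ) ((j : ℕ) + 1) =
            (Equiv.swap (j : ℕ) ((j : ℕ) + 1) * Equiv.swap ((j : ℕ) + 1) ((j : ℕ) + 1 + 1))⁻¹ := by
          rw [mul_inv_rev, Equiv.swap_inv, Equiv.swap_inv]
        rw [h4, inv_pow, h3, inv_one]
      · show (Equiv.swap (i : ℕ) ((i : ℕ) + 1) * Equiv.swap (j : ℕ) ((j : ℕ) + 1)) ^ 3 = 1
        rw [← h]
        exact key (i : ℕ)
    · rw [not_or] at h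
      show (Equiv.swap (i : ℕ) ((i : ℕ) + 1) * Equiv.swap (j : ℕ) ((j : ℕ) + 1)) ^ 2 = 1
      have h5 := comm_far (a := (i : ℕ)) (b := (i : ℕ) + 1) (c := (j : ℕ)) (d := (j : ℕ) + 1)
        hij' (fun e => h.1 e.symm) h.2 (by omega)
      rw [pow_two]
      nth_rewrite 2 [h5]
      simp only [mul_assoc, Equiv.swap_mul_self_mul, Equiv.swap_mul_self]

/-- the permutation representation of the Coxeter group of type `A_n` -/
noncomputable def pp (n : ℕ) : (CoxeterMatrix.A n).Group →* Equiv.Perm ℕ :=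
  (CoxeterMatrix.A n).toCoxeterSystem.lift ⟨_, liftable n⟩

lemma pp_simple (n : ℕ) (i : Fin n) :
    pp n ((CoxeterMatrix.A n).toCoxeterSystem.simple i) = Equiv.swap (i : ℕ) ((i : ℕ) + 1) :=
  (CoxeterMatrix.A n).toCoxeterSystem.lift_apply_simple (liftable n) i

/-- the linear map of the roots to vectors -/
noncomputable def LL (n : ℕ) : (Fin n →₀ ℝ) →ₗ[ℝ] (ℕ → ℝ) :=
  Finsupp.linearCombination ℝ
    (fun i : Fin n => (Pi.single (i : ℕ) (1 : ℝ) - Pi.single ((i : ℕ) + 1) (1 : ℝ) : ℕ → ℝ))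

lemma LL_ee (n : ℕ) (i : Fin n) :
    LL n (ee i) = Pi.single (i : ℕ) (1 : ℝ) - Pi.single ((i : ℕ) + 1) (1 : ℝ) := by
  unfold LL
  rw [Finsupp.linearCombination_single, one_smul]

/-- permutation of the coordinates -/
noncomputable def TT (σ : Equiv.Perm ℕ) : (ℕ → ℝ) →ₗ[ℝ] (ℕ → ℝ) :=
  LinearMap.funLeft ℝ ℝ (fun x => σ⁻¹ x)

lemma TT_apply (σ : Equiv.Perm ℕ) (f : ℕ → ℝ) (x : ℕ) : TT σ f x = f (σ⁻¹ x) := rfl

lemma TT_mul (σ τ : Equiv.Perm ℕ) (f : ℕ → ℝ) : TT (σ * τ) f = TT σ (TT τ f) := by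
  ext x
  simp only [TT_apply, mul_inv_rev, Equiv.Perm.mul_apply]

lemma TT_single (σ : Equiv.Perm ℕ) (a : ℕ) :
    TT σ (Pi.single a (1 : ℝ)) = Pi.single (σ a) (1 : ℝ) := by
  ext x
  rw [TT_apply, Pi.single_apply, Pi.single_apply]
  by_cases h : σ⁻¹ x = a
  · rw [if_pos h, if_pos]
    rw [← h]; simp
  · rw [if_neg h, if_neg]
    rintro rfl
    exact h (by simp)

lemma LL_sg (n : ℕ) (i : Fin n) (v : Fin n →₀ ℝ) :
    LL n (sg (CoxeterMatrix.A n) i v) = TT (Equiv.swap (i : ℕ) ((i : ℕ) + 1)) (LL n v) := by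
  have h : (LL n).comp (sg (CoxeterMatrix.A n) i) =
      (TT (Equiv.swap (i : ℕ) ((i : ℕ) + 1))).comp (LL n) := by
    apply Finsupp.lhom_ext
    intro j b
    have hb : Finsupp.single j b = b • ee j := by
      rw [Finsupp.smul_single, smul_eq_mul, mul_one]
    rw [hb, map_smul, map_smul]
    congr 1
    rw [LinearMap.comp_apply, LinearMap.comp_apply, sg_ee, map_add, map_smul, LL_ee, LL_ee,
      map_sub, TT_single, TT_single]
    have hc : cc (CoxeterMatrix.A n) j i = if j = i then -1 else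
        (if (i : ℕ) + 1 = j ∨ (j : ℕ) + 1 = i then 1 / 2 else 0) := by
      unfold cc
      rw [A_apply]
      split_ifs
      · simp
      · rw [show ((3 : ℕ) : ℝ) = 3 by norm_num, Real.cos_pi_div_three]
      · rw [show ((2 : ℕ) : ℝ) = 2 by norm_num, Real.cos_pi_div_two]
    rw [hc]
    by_cases hji : j = i
    · subst hji
      rw [if_pos rfl, Equiv.swap_apply_left, Equiv.swap_apply_right]
      ext x
      simp only [Pi.add_apply, Pi.sub_apply, Pi.smul_apply, smul_eq_mul]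
      ring
    · have hji' : (j : ℕ) ≠ i := fun e => hji (Fin.ext e)
      rw [if_neg hji]
      by_cases h1 : (i : ℕ) + 1 = j
      · rw [if_pos (Or.inl h1), ← h1, Equiv.swap_apply_right,
          Equiv.swap_apply_of_ne_of_ne (by omega) (by omega)]
        ext x
        simp only [Pi.add_apply, Pi.sub_apply, Pi.smul_apply, smul_eq_mul]
        ring
      · by_cases h2 : (j : ℕ) + 1 = i
        · rw [if_pos (Or.inr h2), ← h2, Equiv.swap_apply_left,
            Equiv.swap_apply_of_ne_of_ne (by omega) (by omega)]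
          ext x
          simp only [Pi.add_apply, Pi.sub_apply, Pi.smul_apply, smul_eq_mul]
          ring
        · rw [if_neg (by tauto), Equiv.swap_apply_of_ne_of_ne hji' (fun e => h1 e.symm),
            Equiv.swap_apply_of_ne_of_ne h2 (by omega)]
          simp
  exact LinearMap.congr_fun h v

lemma LL_geo (n : ℕ) (w : (CoxeterMatrix.A n).Group) (v : Fin n →₀ ℝ) :
    LL n (geo (CoxeterMatrix.A n).toCoxeterSystem w v) = TT (pp n w) (LL n v) := by
  induction w using (CoxeterMatrix.A n).toCoxeterSystem.simple_induction generalizing v with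
  | simple i => rw [geo_simple, pp_simple, LL_sg]
  | one =>
    rw [map_one, map_one, Module.End.one_apply]
    ext x
    rw [TT_apply]; rfl
  | mul w w' h1 h2 =>
    rw [map_mul, map_mul, Module.End.mul_apply, TT_mul, h1, h2]

lemma pair_unique {a b c d : ℕ} (hab : a ≠ b) (hcd : c ≠ d)
    (h : (Pi.single a (1 : ℝ) - Pi.single b (1 : ℝ) : ℕ → ℝ) = Pi.single c 1 - Pi.single d 1) :
    a = c ∧ b = d := by
  have h1 := congrFun h a
  have h2 := congrFun h b
  simp only [Pi.sub_apply, Pi.single_apply, if_true] at h1 h2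
  rw [if_neg hab] at h1
  rw [if_neg hab.symm] at h2
  constructor
  · by_contra h3
    rw [if_neg h3] at h1
    split_ifs at h1 <;> norm_num at h1
  · by_contra h3
    rw [if_neg h3] at h2
    split_ifs at h2 <;> norm_num at h2

theorem t_ROOTA : S_ROOTA := by
  intro hlab n
  have hex : ∀ β : Phi (CoxeterMatrix.A n).toCoxeterSystem, ∃ q : ℕ × ℕ, q.1 ≠ q.2 ∧
      LL n β.1 = Pi.single q.1 1 - Pi.single q.2 1 := by
    intro β
    obtain ⟨w, i, h⟩ := β.2
    refine ⟨(pp n w i, pp n w (i + 1)), ?_, ?_⟩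
    · intro e
      have := (pp n w).injective e
      omega
    · rw [h, LL_geo, LL_ee, map_sub, TT_single, TT_single]
  choose q hq1 hq2 using hex
  refine ⟨fun β => (q β).1, fun β => (q β).2, hq1, ?_⟩
  intro β γ hne hl
  have hh : ∃ p : (CoxeterMatrix.A n).Group × Fin n × Fin n,
      β.1 = geo (CoxeterMatrix.A n).toCoxeterSystem p.1 (ee p.2.1) ∧
      γ.1 = geo (CoxeterMatrix.A n).toCoxeterSystem p.1 (ee p.2.2) := by
    by_contra h
    exact hl (dif_neg h)
  obtain ⟨⟨w, i, j⟩, h1, h2⟩ := hh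
  simp only at h1 h2
  have hM := hlab _ _ _ (CoxeterMatrix.A n).toCoxeterSystem β γ w i j h1 h2
  have hij : i ≠ j := by
    rintro rfl
    exact hne (Subtype.ext (h1.trans h2.symm))
  have hij' : (i : ℕ) ≠ j := fun e => hij (Fin.ext e)
  have e1 : (q β).1 = pp n w i ∧ (q β).2 = pp n w (i + 1) := by
    apply pair_unique (hq1 β)
    · intro e
      have := (pp n w).injective e
      omega
    · rw [← hq2 β, h1, LL_geo, LL_ee, map_sub, TT_single, TT_single]
  have e2 : (q γ).1 = pp n w j ∧ (q γ).2 = pp n w (j + 1) := by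
    apply pair_unique (hq1 γ)
    · intro e
      have := (pp n w).injective e
      omega
    · rw [← hq2 γ, h2, LL_geo, LL_ee, map_sub, TT_single, TT_single]
  simp only [e1.1, e1.2, e2.1, e2.2, ne_eq, EmbeddingLike.apply_eq_iff_eq]
  refine ⟨hij', by omega, by omega, ?_⟩
  rw [hM, A_apply, if_neg hij]
  by_cases h : (i : ℕ) + 1 = j ∨ (j : ℕ) + 1 = i
  · rw [if_pos h, if_pos (Or.symm h)]
  · rw [if_neg h, if_neg (fun h' => h (Or.symm h'))]

end Pool.Agent.J6H92.AR
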